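import Pool.Agent.Y142.SS.Stm
import Pool.Agent.Y779.ZS.Chars

set_option autoImplicit false

/-! Project Y142-SS (helper142), task CHARA: the characteristic polynomial of a matrix near `1`;
adapted from the file of helper721 (task CHARE), which is adapted from the file of helper779. -/

open Matrix Polynomial Filter Topology
open Pool.Agent.Y142.ZO Pool.Agent.Y142.ZI Pool.Agent.Y142.ZS Pool.Agent.Y142.SS
open Pool.Agent.Y949.ZI Pool.Agent.Y779.ZS

namespace Pool.Agent.Y737.SS.Chara

theorem t : S_CHARA := by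
  intro ℓ _ N hN T ε hε
  have hℓ0 : (ℓ : ℚ_[ℓ]) ≠ 0 := by
    exact_mod_cast (Fact.out : ℓ.Prime).ne_zero
  have hne : Nonempty (Fin N) := ⟨⟨0, hN⟩⟩
  -- the neighbourhood
  have hnb : ∀ᶠ z : Fin N → Fin N → ℚ_[ℓ] in 𝓝 T,
      ∀ j ∈ Finset.range (N + 1), ‖(Matrix.of z).charpoly.coeff j - T.charpoly.coeff j‖ < ε := by
    rw [Finset.eventually_all]
    intro j _
    have hc : Continuous fun z : Fin N → Fin N → ℚ_[ℓ] =>
        ‖(Matrix.of z).charpoly.coeff j - T.charpoly.coeff j‖ :=
      ((continuous_coeff_charpoly j).sub continuous_const).norm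
    have h1 := hc.tendsto T
    have h2 : ‖(Matrix.of T).charpoly.coeff j - T.charpoly.coeff j‖ = 0 := by
      have : (Matrix.of T) = T := rfl
      rw [this, sub_self, norm_zero]
    simp only [h2] at h1
    exact h1.eventually_lt_const hε
  obtain ⟨δ, hδ, hball⟩ := Metric.eventually_nhds_iff.1 hnb
  refine ⟨δ, 0, hδ, fun k g _ hgT => ?_⟩
  set c : ℚ_[ℓ] := (ℓ : ℚ_[ℓ]) ^ k with hc
  have hc0 : c ≠ 0 := pow_ne_zero _ hℓ0
  set A : Matrix (Fin N) (Fin N) ℚ_[ℓ] := c⁻¹ • (g - 1) with hA
  have hgA : g = 1 + c • A := by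
    rw [hA, smul_smul, mul_inv_cancel₀ hc0, one_smul]
    abel
  clear_value A
  have hd : dist (fun a b => A a b : Fin N → Fin N → ℚ_[ℓ]) (fun a b => T a b) < δ :=
    (dist_pi_lt_iff hδ).2 fun a => (dist_pi_lt_iff hδ).2 fun b => by
      rw [dist_eq_norm]
      exact hgT a b
  have hcoef := hball (y := fun a b => A a b) hd
  have hof : (Matrix.of fun a b => A a b) = A := rfl
  rw [hof] at hcoef
  have hgd : g.charpoly.natDegree = N := by rw [charpoly_natDegree_eq_dim, Fintype.card_fin]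
  intro j
  have h1 : resc ℓ k g.charpoly = A.charpoly := by
    unfold resc
    rw [hgd, hgA, ← hc, charpoly_comp A c, ← mul_assoc, ← C_mul, ← mul_pow, inv_mul_cancel₀ hc0,
      one_pow, C_1, one_mul]
  rw [h1, coeff_sub]
  by_cases hj : j ∈ Finset.range (N + 1)
  · exact hcoef _ hj
  · have hj2 : N < j := by
      rw [Finset.mem_range] at hj
      omega
    rw [coeff_eq_zero_of_natDegree_lt, coeff_eq_zero_of_natDegree_lt, sub_zero, norm_zero]
    · exact hε
    · rw [charpoly_natDegree_eq_dim, Fintype.card_fin]; exact hj2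
    · rw [charpoly_natDegree_eq_dim, Fintype.card_fin]; exact hj2

end Pool.Agent.Y737.SS.Chara
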